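import Pool.Agent.H73.OX.Targets
import Pool.Agent.H86.KX.PDP

namespace Pool.Agent.H78.KXX

open Finset Pool.Agent.H73.OX
open Pool.Agent.H1.LP (Loc supp ip)
open Pool.Agent.H96.KX (PDz S_PDP jun fac psz)

/-- the subcube of the points which agree with `y` on `I` -/
def tau {p B : ℕ} (I : Finset (Fin B)) (y : Fin B → ZMod p) (i : Fin B) : Option (ZMod p) :=
  if i ∈ I then some (y i) else none

theorem psz_tau {p B : ℕ} (I : Finset (Fin B)) (y : Fin B → ZMod p) :
    psz (tau I y) = I.card := by
  unfold psz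
  congr 1
  ext i
  unfold tau
  by_cases h : i ∈ I <;> simp [h]

theorem jun_tau {p B : ℕ} [NeZero p] (I : Finset (Fin B)) (y z : Fin B → ZMod p)
    (h : jun (tau I y) z ≠ 0) : ∀ i ∈ I, z i = y i := by
  intro i hi
  unfold jun at h
  rw [Finset.prod_ne_zero_iff] at h
  have h1 := h i (mem_univ i)
  have h2 : tau I y i = some (y i) := if_pos hi
  rw [h2] at h1
  by_contra hc
  exact h1 (if_neg hc)

theorem sum_jun_tau {p B : ℕ} [NeZero p] (I : Finset (Fin B)) (z : Fin B → ZMod p) :
    ∑ y : Fin B → ZMod p, jun (tau I y) z = (p : ℝ) ^ B := by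
  have h1 : ∀ y : Fin B → ZMod p, jun (tau I y) z =
      ∏ i, (fun (i : Fin B) (v : ZMod p) =>
        if i ∈ I then (if z i = v then (Fintype.card (ZMod p) : ℝ) else 0) else 1) i (y i) := by
    intro y
    unfold jun
    refine Finset.prod_congr rfl fun i _ => ?_
    unfold tau
    by_cases hi : i ∈ I
    · simp only [hi, if_true]
      rfl
    · simp only [hi, if_false]
      rfl
  rw [Finset.sum_congr rfl fun y _ => h1 y]
  have h2 := Finset.prod_univ_sum (fun _ : Fin B => (univ : Finset (ZMod p)))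
    (fun (i : Fin B) (v : ZMod p) =>
        if i ∈ I then (if z i = v then (Fintype.card (ZMod p) : ℝ) else 0) else 1)
  rw [Fintype.piFinset_univ] at h2
  rw [← h2]
  have h3 : ∀ i : Fin B, (∑ v : ZMod p,
      if i ∈ I then (if z i = v then (Fintype.card (ZMod p) : ℝ) else 0) else 1) = p := by
    intro i
    by_cases hi : i ∈ I
    · simp only [hi, if_true]
      rw [Finset.sum_ite_eq]
      simp [ZMod.card]
    · simp only [hi, if_false]
      simp [ZMod.card]
  rw [Finset.prod_congr rfl fun i _ => h3 i, Finset.prod_const, card_univ, Fintype.card_fin]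

theorem ip_congr {p B : ℕ} (l y z : Fin B → ZMod p) (h : ∀ i ∈ supp l, z i = y i) :
    ip l z = ip l y := by
  unfold ip
  refine Finset.sum_congr rfl fun i _ => ?_
  by_cases hi : l i = 0
  · rw [hi, zero_mul, zero_mul]
  · rw [h i (by simp [supp, hi])]

theorem pf_LAV : S_LAV := by
  intro p B d hp S l hl
  have hP : S_PDP := Pool.Agent.H86.KX.pf_PDP
  have hp0 : (p : ℝ) ^ B ≠ 0 := pow_ne_zero _ (Nat.cast_ne_zero.2 hp.out.ne_zero)
  refine (mul_eq_zero.1 ?_).resolve_left hp0
  rw [Finset.mul_sum]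
  have h1 : ∀ z : Fin B → ZMod p, (p : ℝ) ^ B * (if ip l z ≠ S.ga l then PDz S z else 0) =
      ∑ y : Fin B → ZMod p,
        (if ip l y ≠ S.ga l then jun (tau (supp l) y) z * PDz S z else 0) := by
    intro z
    rw [← sum_jun_tau (supp l) z, Finset.sum_mul]
    refine Finset.sum_congr rfl fun y _ => ?_
    by_cases hj : jun (tau (supp l) y) z = 0
    · rw [hj]; simp
    · rw [ip_congr l y z (jun_tau (supp l) y z hj)]
      split_ifs <;> simp
  rw [Finset.sum_congr rfl fun z _ => h1 z, Finset.sum_comm]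
  refine Finset.sum_eq_zero fun y _ => ?_
  by_cases hy : ip l y ≠ S.ga l
  · rw [Finset.sum_congr rfl fun z _ => if_pos hy]
    refine (hP p B d S (tau (supp l) y) ?_).2 l hl ?_
    · rw [psz_tau]; exact S.small l hl
    · intro z hz
      rw [ip_congr l y z (jun_tau (supp l) y z hz)]
      exact hy
  · rw [Finset.sum_congr rfl fun z _ => if_neg hy, Finset.sum_const_zero]

end Pool.Agent.H78.KXX
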